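import Mathlib
import Pool.Agent.H5.SepHad

namespace Pool.Agent.Results.MP_75a0ab_co.NotDense

open Finset Pool.Agent.H5.SepHad

def Cfg (d n : ℕ) : Prop := ∃ (x f : Fin n → Fin d → ℝ) (z : Fin d → ℝ),
  (∀ i, ∑ k, f i k * x i k = 1) ∧
  (∀ i j, i ≠ j → -1 < ∑ k, f i k * x j k ∧ ∑ k, f i k * x j k < 0) ∧
  (∀ i, 0 < ∑ k, f i k * z k ∧ ∑ k, f i k * z k < 1)

theorem cfg_add {d n e m : ℕ} (h1 : Cfg d n) (h2 : Cfg e m) : Cfg (d + e) (n + m) := by
  obtain ⟨x, f, z, a1, a2, a3⟩ := h1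
  obtain ⟨y, g, w, b1, b2, b3⟩ := h2
  refine ⟨Fin.append (fun i => Fin.append (x i) (-w)) (fun j => Fin.append (-z) (y j)),
    Fin.append (fun i => Fin.append (f i) 0) (fun j => Fin.append 0 (g j)), Fin.append z w,
    fun i => ?_, fun i j => ?_, fun i => ?_⟩
  · refine Fin.addCases (fun i => ?_) (fun i => ?_) i <;>
      simp [Fin.sum_univ_add, a1, b1]
  · refine Fin.addCases (fun i => ?_) (fun i => ?_) i <;>
      refine Fin.addCases (fun j => ?_) (fun j => ?_) j <;> intro h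
    · simpa [Fin.sum_univ_add] using a2 i j (fun e => h (by rw [e]))
    · simpa [Fin.sum_univ_add, and_comm] using a3 i
    · simpa [Fin.sum_univ_add, and_comm] using b3 i
    · simpa [Fin.sum_univ_add] using b2 i j (fun e => h (by rw [e]))
  · refine Fin.addCases (fun i => ?_) (fun i => ?_) i
    · simpa [Fin.sum_univ_add] using a3 i
    · simpa [Fin.sum_univ_add] using b3 i

def ent (L : List (List ℤ)) (i k : ℕ) : ℤ := (L.getD i []).getD k 0

theorem of_int {d n : ℕ} (X F : List (List ℤ)) (z : List ℤ)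
    (h2 : ∀ i j : Fin n, i ≠ j → - ∑ k : Fin d, ent F i k * ent X i k < ∑ k : Fin d, ent F i k * ent X j k ∧
      ∑ k : Fin d, ent F i k * ent X j k < 0)
    (h3 : ∀ i : Fin n, 0 < ∑ k : Fin d, ent F i k * z.getD k 0 ∧
      ∑ k : Fin d, ent F i k * z.getD k 0 < ∑ k : Fin d, ent F i k * ent X i k) : Cfg d n := by
  have hN : ∀ i : Fin n, (0 : ℝ) < ((∑ k : Fin d, ent F i k * ent X i k : ℤ) : ℝ) := fun i => by
    exact_mod_cast (h3 i).1.trans (h3 i).2
  have e : ∀ (i : Fin n) (v : Fin d → ℤ),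
      ∑ k : Fin d, (ent F i k : ℝ) / ((∑ k : Fin d, ent F i k * ent X i k : ℤ) : ℝ) * (v k : ℝ)
      = ((∑ k : Fin d, ent F i k * v k : ℤ) : ℝ) / ((∑ k : Fin d, ent F i k * ent X i k : ℤ) : ℝ) := by
    intro i v
    generalize ((∑ k : Fin d, ent F i k * ent X i k : ℤ) : ℝ) = N
    push_cast
    rw [sum_div]
    exact sum_congr rfl fun k _ => by ring
  refine ⟨fun i k => ent X i k,
    fun i k => (ent F i k : ℝ) / ((∑ k : Fin d, ent F i k * ent X i k : ℤ) : ℝ),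
    fun k => (z.getD k 0 : ℤ), fun i => ?_, fun i j h => ?_, fun i => ?_⟩
  · rw [e i (fun k => ent X i k), div_self (hN i).ne']
  · rw [e i (fun k => ent X j k), lt_div_iff₀ (hN i), div_lt_iff₀ (hN i), zero_mul, neg_one_mul]
    exact_mod_cast h2 i j h
  · rw [e i (fun k => z.getD k 0), lt_div_iff₀ (hN i), div_lt_iff₀ (hN i), zero_mul, one_mul]
    exact_mod_cast h3 i

theorem cfg1 : Cfg 1 1 := of_int [[2]] [[1]] [1] (by decide +kernel) (by decide +kernel)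

theorem cfg7 : Cfg 7 15 :=
  of_int
    [[33, -30, -28, 27, 11, 39, 35],
    [28, 20, -10, -45, 21, 18, 42],
    [22, -24, -28, -35, -42, 17, -5],
    [45, -47, -21, -9, 2, -55, 23],
    [19, 1, -3, -13, 28, 47, -38],
    [33, 47, 2, -5, -33, -37, 26],
    [30, 22, -18, -29, 32, -41, -27],
    [30, 47, -13, 38, 35, 6, 10],
    [48, -20, 23, 63, 2, -29, 27],
    [41, -26, 43, -16, -28, -5, 48],
    [44, -26, 17, 4, 69, -10, 17],
    [34, 32, 62, -12, 19, -2, -4],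
    [26, -1, 32, 29, -43, 27, -21],
    [38, -42, 35, -7, 7, -25, -44],
    [29, 2, -41, 37, -23, -26, -28]]
    [[-33, -30, -28, 27, 11, 39, 35],
    [-28, 20, -10, -45, 21, 18, 42],
    [-22, -24, -28, -35, -42, 17, -5],
    [-45, -47, -21, -9, 2, -55, 23],
    [-19, 1, -3, -13, 28, 47, -38],
    [-33, 47, 2, -5, -33, -37, 26],
    [-30, 22, -18, -29, 32, -41, -27],
    [-30, 47, -13, 38, 35, 6, 10],
    [-48, -20, 23, 63, 2, -29, 27],
    [-41, -26, 43, -16, -28, -5, 48],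
    [-44, -26, 17, 4, 69, -10, 17],
    [-34, 32, 62, -12, 19, -2, -4],
    [-26, -1, 32, 29, -43, 27, -21],
    [-38, -42, 35, -7, 7, -25, -44],
    [-29, 2, -41, 37, -23, -26, -28]]
    [-1, 0, 0, 0, 0, 0, 0] (by decide +kernel) (by decide +kernel)

theorem cfg8 : Cfg 8 17 :=
  of_int
    [[21, 5, -8, 20, -14, 25, -19, -19],
    [20, 14, -13, 5, -22, -7, -21, 25],
    [22, -3, 15, -20, -8, -5, -33, -17],
    [24, -8, 14, 10, 0, 35, 25, -1],
    [22, -2, 10, -6, 27, 26, -21, 12],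
    [26, -5, 10, 40, -19, -7, 9, 7],
    [30, 14, 28, 18, 13, -20, -22, 11],
    [18, 20, 7, -16, -2, -33, 11, -8],
    [24, 10, -30, 24, 11, -22, 4, -3],
    [26, -24, -32, -6, 7, 1, -25, -1],
    [23, -26, 34, -2, 4, -13, 11, 0],
    [28, -21, -4, 16, 18, -12, -3, 35],
    [19, -5, 8, -13, -40, 3, 11, -3],
    [18, -9, -13, -16, 28, 0, 24, 0],
    [23, 25, 9, 11, 26, 7, 7, -24],
    [21, 31, -4, -22, -2, 20, 10, 10],
    [21, -18, -8, 2, -4, -10, 8, -38]]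
    [[-21, 5, -8, 20, -14, 25, -19, -19],
    [-20, 14, -13, 5, -22, -7, -21, 25],
    [-22, -3, 15, -20, -8, -5, -33, -17],
    [-24, -8, 14, 10, 0, 35, 25, -1],
    [-22, -2, 10, -6, 27, 26, -21, 12],
    [-26, -5, 10, 40, -19, -7, 9, 7],
    [-30, 14, 28, 18, 13, -20, -22, 11],
    [-18, 20, 7, -16, -2, -33, 11, -8],
    [-24, 10, -30, 24, 11, -22, 4, -3],
    [-26, -24, -32, -6, 7, 1, -25, -1],
    [-23, -26, 34, -2, 4, -13, 11, 0],
    [-28, -21, -4, 16, 18, -12, -3, 35],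
    [-19, -5, 8, -13, -40, 3, 11, -3],
    [-18, -9, -13, -16, 28, 0, 24, 0],
    [-23, 25, 9, 11, 26, 7, 7, -24],
    [-21, 31, -4, -22, -2, 20, 10, 10],
    [-21, -18, -8, 2, -4, -10, 8, -38]]
    [-1, 0, 0, 0, 0, 0, 0, 0] (by decide +kernel) (by decide +kernel)

theorem cfg9 : Cfg 9 23 :=
  of_int
    [[37, -29, -25, -35, -21, 19, -5, -15, 11],
    [29, -13, -11, -30, 19, 1, -32, 22, -17],
    [33, -21, 6, -9, -38, -11, 38, 3, 1],
    [31, -13, -17, -1, 4, 36, 33, 22, 12],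
    [39, 44, -8, -6, -27, 0, 26, 23, 8],
    [26, 11, 32, -13, -9, -34, -6, 25, -2],
    [31, 23, -21, 7, -27, -15, -12, -32, 19],
    [27, 31, -9, -26, 27, -13, -4, -1, 24],
    [28, 4, 22, -17, -1, 14, -39, -23, 14],
    [30, -12, -16, 35, 21, 14, 4, 6, -33],
    [31, -3, -1, 13, -9, -13, 12, 14, 52],
    [39, -39, -34, 15, -14, -9, -12, 26, 6],
    [28, -12, -29, 9, 18, -16, 31, -24, 10],
    [32, 16, -31, 9, 6, -39, -10, 11, -20],
    [27, 9, 35, 14, -13, 26, 17, 13, -21],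
    [31, -12, 8, 5, -14, 16, 11, -48, -17],
    [27, -2, -4, -5, -41, -2, -22, 2, -32],
    [28, -16, 12, 40, -14, -31, -1, -11, -3],
    [22, -30, 24, -23, 23, -3, 13, -1, 17],
    [29, -13, 22, 26, 14, 9, -28, 29, 12],
    [27, 10, -3, -24, 18, -5, 33, 10, -32],
    [25, 22, 4, 28, 18, 27, 4, -18, 21],
    [33, 16, -26, 1, -15, 30, -29, 20, 17]]
    [[-37, -29, -25, -35, -21, 19, -5, -15, 11],
    [-29, -13, -11, -30, 19, 1, -32, 22, -17],
    [-33, -21, 6, -9, -38, -11, 38, 3, 1],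
    [-31, -13, -17, -1, 4, 36, 33, 22, 12],
    [-39, 44, -8, -6, -27, 0, 26, 23, 8],
    [-26, 11, 32, -13, -9, -34, -6, 25, -2],
    [-31, 23, -21, 7, -27, -15, -12, -32, 19],
    [-27, 31, -9, -26, 27, -13, -4, -1, 24],
    [-28, 4, 22, -17, -1, 14, -39, -23, 14],
    [-30, -12, -16, 35, 21, 14, 4, 6, -33],
    [-31, -3, -1, 13, -9, -13, 12, 14, 52],
    [-39, -39, -34, 15, -14, -9, -12, 26, 6],
    [-28, -12, -29, 9, 18, -16, 31, -24, 10],
    [-32, 16, -31, 9, 6, -39, -10, 11, -20],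
    [-27, 9, 35, 14, -13, 26, 17, 13, -21],
    [-31, -12, 8, 5, -14, 16, 11, -48, -17],
    [-27, -2, -4, -5, -41, -2, -22, 2, -32],
    [-28, -16, 12, 40, -14, -31, -1, -11, -3],
    [-22, -30, 24, -23, 23, -3, 13, -1, 17],
    [-29, -13, 22, 26, 14, 9, -28, 29, 12],
    [-27, 10, -3, -24, 18, -5, 33, 10, -32],
    [-25, 22, 4, 28, 18, 27, 4, -18, 21],
    [-33, 16, -26, 1, -15, 30, -29, 20, 17]]
    [-1, 0, 0, 0, 0, 0, 0, 0, 0] (by decide +kernel) (by decide +kernel)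

theorem cfg_all (d : ℕ) (hd : 7 ≤ d) : ∃ n, 2 * d < n ∧ Cfg d n := by
  induction d using Nat.strong_induction_on with
  | _ d ih =>
    by_cases h : 14 ≤ d
    · obtain ⟨e, rfl⟩ : ∃ e, d = e + 7 := ⟨d - 7, by omega⟩
      obtain ⟨n, h1, h2⟩ := ih e (by omega) (by omega)
      exact ⟨n + 15, by omega, cfg_add h2 cfg7⟩
    · have c10 := cfg_add cfg9 cfg1
      have c11 := cfg_add c10 cfg1
      have c12 := cfg_add c11 cfg1
      have c13 := cfg_add c12 cfg1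
      have : d = 7 ∨ d = 8 ∨ d = 9 ∨ d = 10 ∨ d = 11 ∨ d = 12 ∨ d = 13 := by omega
      rcases this with rfl | rfl | rfl | rfl | rfl | rfl | rfl
      · exact ⟨_, by norm_num, cfg7⟩
      · exact ⟨_, by norm_num, cfg8⟩
      · exact ⟨_, by norm_num, cfg9⟩
      · exact ⟨_, by norm_num, c10⟩
      · exact ⟨_, by norm_num, c11⟩
      · exact ⟨_, by norm_num, c12⟩
      · exact ⟨_, by norm_num, c13⟩

theorem result : ∀ d : ℕ, 7 ≤ d → ∃ K0 : Set (EuclideanSpace ℝ (Fin d)), SymBody K0 ∧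
    ∃ ε : ℝ, 0 < ε ∧ ∀ K : Set (EuclideanSpace ℝ (Fin d)), SymBody K →
      Metric.hausdorffDist K K0 < ε →
      ∃ T : Finset (EuclideanSpace ℝ (Fin d)), SepConfig K T ∧ 2 * d < T.card := by
  intro d hd
  obtain ⟨n, hn, x, f, z, a1, a2, _⟩ := cfg_all d hd
  have e : ∀ i j, innerSL ℝ (WithLp.toLp 2 (f i) : EuclideanSpace ℝ (Fin d)) (WithLp.toLp 2 (x j))
      = ∑ k, f i k * x j k := by
    intro i j
    simp [PiLp.inner_apply, mul_comm]
  obtain ⟨K0, h0, ε, hε, h⟩ := robust (fun i => (WithLp.toLp 2 (x i) : EuclideanSpace ℝ (Fin d)))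
    (fun i => innerSL ℝ (WithLp.toLp 2 (f i) : EuclideanSpace ℝ (Fin d)))
    (fun i => by rw [e, a1]) (fun i j h => by rw [e]; exact a2 i j h)
  refine ⟨K0, h0, ε, hε, fun K hK hd => ?_⟩
  obtain ⟨T, h1, h2⟩ := h K hK hd
  exact ⟨T, h1, by omega⟩

end Pool.Agent.Results.MP_75a0ab_co.NotDense
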